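import Pool.Agent.W455.EM.Stm
import Pool.Agent.FracEM.PM.Abs1

/-!
# The extremal case, composed (`S_EXT` from `S_EXS`, `S_EXB1`, `S_EXB2`, `S_EXF`)
-/

set_option autoImplicit false

namespace Pool.Agent.W999.EM.EXT

open Finset Pool.Agent.FracEM.PMT Pool.Agent.W455.EM

/-- cardinalities for a matching whose edges meet `A` in `t` points -/
theorem card_D {k n t : ℕ} (M : Finset (Finset (Fin n))) (hM : Matching M)
    (hk : ∀ e ∈ M, e.card = k) (A : Finset (Fin n)) (ht : ∀ e ∈ M, (e ∩ A).card = t) :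
    (M.biUnion id).card = M.card * k ∧ (A ∩ M.biUnion id).card = M.card * t := by
  constructor
  · have h1 : (M.biUnion id).card = ∑ e ∈ M, (id e).card :=
      Finset.card_biUnion (fun x hx y hy hne => hM x hx y hy hne)
    have h2 : ∑ e ∈ M, (id e).card = ∑ _e ∈ M, k := Finset.sum_congr rfl (fun e he => hk e he)
    rw [h1, h2, Finset.sum_const, smul_eq_mul]
  · have h2 : A ∩ M.biUnion id = M.biUnion (fun e => e ∩ A) := by
      ext x
      simp only [mem_inter, mem_biUnion, id]
      constructor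
      · rintro ⟨hx, e, he, hxe⟩
        exact ⟨e, he, hxe, hx⟩
      · rintro ⟨e, he, hxe, hx⟩
        exact ⟨hx, e, he, hxe⟩
    have h1 : (M.biUnion (fun e => e ∩ A)).card = ∑ e ∈ M, (e ∩ A).card := by
      apply Finset.card_biUnion
      intro x hx y hy hne
      exact Disjoint.mono Finset.inter_subset_left Finset.inter_subset_left (hM x hx y hy hne)
    rw [h2, h1, Finset.sum_congr rfl (fun e he => ht e he), Finset.sum_const, smul_eq_mul]

theorem main (hS : S_EXS) (hB1 : S_EXB1) (hB2 : S_EXB2) (hF : S_EXF) : S_EXT := by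
  intro k hk
  obtain ⟨α1, hα1, H1⟩ := hS k hk
  obtain ⟨α2, hα2, γ2, hγ2, n2, H2⟩ := hB1 k hk
  obtain ⟨α3, hα3, γ3, hγ3, n3, H3⟩ := hB2 k hk
  obtain ⟨α4, hα4, H4⟩ := hF k hk
  obtain ⟨α, hα, hαα1, hαα2, hαα3, hαα4⟩ : ∃ α : ℝ, 0 < α ∧ α ≤ α1 ∧ α ≤ α2 ∧ α ≤ α3 ∧ α ≤ α4 :=
    ⟨min (min α1 α2) (min α3 α4), lt_min (lt_min hα1 hα2) (lt_min hα3 hα4),
      (min_le_left _ _).trans (min_le_left _ _), (min_le_left _ _).trans (min_le_right _ _),
      (min_le_right _ _).trans (min_le_left _ _), (min_le_right _ _).trans (min_le_right _ _)⟩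
  obtain ⟨γ4, hγ4, n4, H4⟩ := H4 α hα hαα4
  obtain ⟨γ, hγ, hγγ2, hγγ3, hγγ4⟩ : ∃ γ : ℝ, 0 < γ ∧ γ ≤ γ2 ∧ γ ≤ γ3 ∧ γ ≤ γ4 :=
    ⟨min γ2 (min γ3 γ4), lt_min hγ2 (lt_min hγ3 hγ4), min_le_left _ _,
      (min_le_right _ _).trans (min_le_left _ _), (min_le_right _ _).trans (min_le_right _ _)⟩
  obtain ⟨γ', hγ', n1, H1⟩ := H1 α hα hαα1 γ hγ
  refine ⟨γ', hγ', max (max n1 n2) (max n3 n4), ?_⟩
  intro n hn hkn H hH hD B hB hHB
  have hn1 : n1 ≤ n := ((le_max_left _ _).trans (le_max_left _ _)).trans hn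
  have hn2 : n2 ≤ n := ((le_max_right _ _).trans (le_max_left _ _)).trans hn
  have hn3 : n3 ≤ n := ((le_max_left _ _).trans (le_max_right _ _)).trans hn
  have hn4 : n4 ≤ n := ((le_max_right _ _).trans (le_max_right _ _)).trans hn
  obtain ⟨A, hA⟩ := H1 n hn1 hkn H hH hD B hB hHB
  obtain ⟨N, hN⟩ := hkn
  have hk0 : 0 < k := by omega
  have hNk : n / k = N := by
    rw [hN]
    exact Nat.mul_div_cancel_left N hk0
  have hkR : (k : ℝ) ≠ 0 := by positivity
  have hNR : (n : ℝ) / k = N := by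
    rw [hN]
    push_cast
    field_simp
  -- the last step
  have fin : ∀ (M : Finset (Finset (Fin n))) (t : ℕ), M ⊆ H → Matching M →
      (∀ e ∈ M, (e ∩ A).card = t) → ((M.card : ℝ) ≤ γ * n) →
      ((k : ℤ) * N - (A.card + (M.card * k : ℤ) - M.card * t) =
        ((k : ℤ) - 1) * (A.card - M.card * t)) → PMon H univ := by
    intro M t hMH hM ht hγn hcard
    set D := M.biUnion id with hDdef
    obtain ⟨hD1, hD2⟩ := card_D (k := k) M hM (fun e he => hH e (hMH he)) A ht
    rw [← hDdef] at hD1 hD2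
    have hDγ : (D.card : ℝ) ≤ k * γ * n := by
      rw [hD1]
      push_cast
      have := mul_le_mul_of_nonneg_right hγn (Nat.cast_nonneg (α := ℝ) k)
      linarith
    have e1 : (A \ D).card + (A ∩ D).card = A.card := Finset.card_sdiff_add_card_inter A D
    have e2 : (A ∪ D).card + (A ∩ D).card = A.card + D.card := Finset.card_union_add_card_inter A D
    have e3 : ((univ \ A) \ D).card + (A ∪ D).card = n := by
      have h1 : (univ \ A) \ D = univ \ (A ∪ D) := by
        ext x
        simp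
      have h2 : (univ \ (A ∪ D)).card + (univ ∩ (A ∪ D)).card = (univ : Finset (Fin n)).card :=
        Finset.card_sdiff_add_card_inter _ _
      rw [Finset.univ_inter, Finset.card_univ, Fintype.card_fin] at h2
      rw [h1, h2]
    have hcard2 : ((univ \ A) \ D).card = (k - 1) * (A \ D).card := by
      have h1 : 1 ≤ k := hk0
      zify [h1]
      have e1' : ((A \ D).card : ℤ) = A.card - M.card * t := by
        have : ((A \ D).card : ℤ) + (A ∩ D).card = A.card := by exact_mod_cast e1
        rw [hD2] at this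
        push_cast at this
        linarith
      have e2' : ((A ∪ D).card : ℤ) = A.card + (M.card * k : ℤ) - M.card * t := by
        have : ((A ∪ D).card : ℤ) + (A ∩ D).card = A.card + D.card := by exact_mod_cast e2
        rw [hD2, hD1] at this
        push_cast at this
        linarith
      have e3' : (((univ \ A) \ D).card : ℤ) = k * N - (A ∪ D).card := by
        have : (((univ \ A) \ D).card : ℤ) + (A ∪ D).card = n := by exact_mod_cast e3
        have hN' : (n : ℤ) = k * N := by exact_mod_cast hN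
        linarith
      rw [e3', e2', e1', hcard]
    have hP1 : PMon H (univ \ D) := H4 n hn4 H A D γ hγ hγγ4 hA hDγ hcard2
    have hP2 : PMon H D := ⟨M, hMH, hM, rfl⟩
    have := PMon_union H (univ \ D) D Finset.sdiff_disjoint hP1 hP2
    rwa [Finset.sdiff_union_of_subset (Finset.subset_univ D)] at this
  have hsize := hA.size
  rw [hNR, abs_le] at hsize
  rcases le_total A.card N with hle | hle
  · obtain ⟨M, hMH, hM, hMc, hMA⟩ := H2 n hn2 ⟨N, hN⟩ H A α γ hα hαα2 hγ hγγ2 hA hD
      (by rw [hNk]; exact hle)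
    rw [hNk] at hMc
    have hMcR : (M.card : ℤ) = N - A.card := by
      rw [hMc]
      push_cast [hle]
      ring
    refine fin M 0 hMH hM ?_ ?_ ?_
    · intro e he
      rw [Finset.card_eq_zero]
      exact Finset.disjoint_iff_inter_eq_empty.1 (hMA e he)
    · have h1 : (M.card : ℝ) = N - A.card := by exact_mod_cast hMcR
      rw [h1]
      linarith [hsize.1]
    · rw [hMcR]
      push_cast
      ring
  · obtain ⟨M, hMH, hM, hMc, hMA⟩ := H3 n hn3 ⟨N, hN⟩ H A α γ hα hαα3 hγ hγγ3 hA
      (by rw [hNk]; exact hle)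
    rw [hNk] at hMc
    have hMcR : (M.card : ℤ) = A.card - N := by
      rw [hMc]
      push_cast [hle]
      ring
    refine fin M 2 hMH hM hMA ?_ ?_
    · have h1 : (M.card : ℝ) = A.card - N := by exact_mod_cast hMcR
      rw [h1]
      linarith [hsize.2]
    · rw [hMcR]
      push_cast
      ring

end Pool.Agent.W999.EM.EXT
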